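import Mathlib

namespace Pool.Agent.Results.MP_6623a1_co.Exact

open Finset

/-- the family `g` has unique multiset sums -/
def UniqueSums {G : Type} [AddCommGroup G] {n : ℕ} (g : Fin n → G) : Prop :=
  ∀ k : Fin n → ℕ, ∑ j, k j = n → ∑ j, k j • g j = ∑ j, g j → ∀ j, k j = 1

lemma lower {G : Type} [AddCommGroup G] [Finite G] {m : ℕ} (g : Fin (m + 1) → G)
    (h : UniqueSums g) : 2 ^ m ≤ Nat.card G := by
  classical
  let f : (Fin m → Fin 2) → G := fun s => ∑ j, (s j : ℕ) • (g j.succ - g 0)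
  have key : ∀ s t : Fin m → Fin 2, ∑ j, (s j : ℕ) ≤ ∑ j, (t j : ℕ) → f s = f t → s = t := by
    intro s t hle hf
    let k : Fin (m + 1) → ℕ :=
      Fin.cons (1 + (∑ j, (t j : ℕ) - ∑ j, (s j : ℕ))) (fun j => 1 + s j - t j)
    have hk : ∀ j : Fin m, (1 + s j - t j : ℕ) + t j = 1 + s j := by
      intro j; have := (t j).isLt; omega
    have hsum : ∑ j : Fin m, (1 + s j - t j : ℕ) + ∑ j, (t j : ℕ) = m + ∑ j, (s j : ℕ) := by
      rw [← sum_add_distrib, sum_congr rfl fun j _ => hk j, sum_add_distrib]; simp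
    have h1 : ∑ j, k j = m + 1 := by
      rw [Fin.sum_univ_succ]
      simp only [k, Fin.cons_zero, Fin.cons_succ]
      omega
    have h2 : ∑ j, k j • g j = ∑ j, g j := by
      rw [Fin.sum_univ_succ, Fin.sum_univ_succ]
      simp only [k, Fin.cons_zero, Fin.cons_succ]
      have e1 : ∑ j : Fin m, (1 + s j - t j : ℕ) • g j.succ + ∑ j, (t j : ℕ) • g j.succ =
          ∑ j : Fin m, g j.succ + ∑ j, (s j : ℕ) • g j.succ := by
        rw [← sum_add_distrib, ← sum_add_distrib]
        refine sum_congr rfl fun j _ => ?_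
        rw [← add_smul, hk, add_smul, one_smul]
      have e2 : ∀ s : Fin m → Fin 2,
          f s = ∑ j, (s j : ℕ) • g j.succ - (∑ j, (s j : ℕ)) • g 0 := by
        intro s
        simp only [f, smul_sub, sum_sub_distrib, sum_smul]
      obtain ⟨d, hd⟩ := Nat.exists_eq_add_of_le hle
      rw [e2, e2, hd, add_smul] at hf
      rw [hd, Nat.add_sub_cancel_left, add_smul, one_smul]
      have e3 : ∑ j : Fin m, (1 + s j - t j : ℕ) • g j.succ =
        ∑ j : Fin m, g j.succ + ∑ j, (s j : ℕ) • g j.succ - ∑ j, (t j : ℕ) • g j.succ :=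
        eq_sub_of_add_eq e1
      have e4 : ∑ j, (s j : ℕ) • g j.succ = ∑ j, (t j : ℕ) • g j.succ - d • g 0 := by
        have := eq_add_of_sub_eq hf
        rw [this]; abel
      rw [e3, e4]; abel
    funext j
    have h3 := h k h1 h2 j.succ
    simp only [k, Fin.cons_succ] at h3
    have := hk j
    exact Fin.ext (by omega)
  have hf : Function.Injective f := by
    intro s t hst
    rcases le_total (∑ j, (s j : ℕ)) (∑ j, (t j : ℕ)) with h | h
    · exact key s t h hst
    · exact (key t s h hst.symm).symm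
  have := Nat.card_le_card_of_injective f hf
  simpa using this

lemma upper (m : ℕ) :
    UniqueSums (Fin.cons 0 (fun i => Pi.single i 1) : Fin (m + 1) → (Fin m → ZMod 2)) := by
  intro k h1 h2
  rw [Fin.sum_univ_succ] at h1
  rw [Fin.sum_univ_succ, Fin.sum_univ_succ] at h2
  simp only [Fin.cons_zero, Fin.cons_succ, smul_zero, zero_add] at h2
  have hodd : ∀ i : Fin m, k i.succ % 2 = 1 := by
    intro i
    have := congrFun h2 i
    have h3 : ((k i.succ : ℕ) : ZMod 2) = ((1 : ℕ) : ZMod 2) := by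
      simpa [Finset.sum_apply, Pi.single_apply] using this
    exact (ZMod.natCast_eq_natCast_iff' _ _ _).1 h3
  have hs : ∑ i : Fin m, k i.succ = m + 2 * ∑ i : Fin m, k i.succ / 2 := by
    rw [mul_sum]
    have : ∀ i : Fin m, k i.succ = 1 + 2 * (k i.succ / 2) := fun i => by
      have := hodd i; omega
    rw [sum_congr rfl fun i _ => this i, sum_add_distrib]; simp
  have h0 : ∑ i : Fin m, k i.succ / 2 = 0 := by omega
  intro j
  refine Fin.cases (by omega) (fun i => ?_) j
  have := (sum_eq_zero_iff.1 h0) i (mem_univ _)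
  have := hodd i
  omega

theorem result (n : ℕ) (hn : 1 ≤ n) :
    IsLeast {N : ℕ | ∃ (G : Type) (_ : AddCommGroup G) (_ : Finite G),
      Nat.card G = N ∧ ∃ g : Fin n → G, UniqueSums g} (2 ^ (n - 1)) := by
  obtain ⟨m, rfl⟩ : ∃ m, n = m + 1 := ⟨n - 1, by omega⟩
  constructor
  · exact ⟨Fin m → ZMod 2, inferInstance, inferInstance, by simp, _, upper m⟩
  · rintro N ⟨G, _, _, rfl, g, hg⟩
    exact lower g hg

end Pool.Agent.Results.MP_6623a1_co.Exact
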